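import Mathlib
import Pool.Agent.N275.QD.Ana

set_option autoImplicit false

/-! # The parabolic maximum principle (project QD, statement S_MP) -/

namespace Pool.Agent.N908.QD

open MeasureTheory Set Filter Topology Complex Pool.Agent.N275.QD

/-- the second derivative is nonnegative at a local minimum -/
theorem d2_nonneg {f : ℝ → ℝ} {a : ℝ} (h : D2 f a) (hm : IsLocalMin f 0) : 0 ≤ a := by
  obtain ⟨f', h1, h2⟩ := h
  by_contra hneg
  push Not at hneg
  have hd : deriv f =ᶠ[𝓝 (0 : ℝ)] f' := by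
    filter_upwards [h1] with x hx using hx.deriv
  have hdd : HasDerivAt (deriv f) a 0 := h2.congr_of_eventuallyEq hd
  have h0 : deriv f 0 = 0 := hm.deriv_eq_zero
  have hc : ContinuousAt f 0 := (h1.self_of_nhds).continuousAt
  have hmax : IsLocalMin (fun x => - f x) 0 := by
    have hdn : deriv (fun x => - f x) = fun x => - deriv f x := by
      funext x
      exact deriv.fun_neg
    apply isLocalMin_of_deriv_deriv_pos
    · rw [hdn]
      have := hdd.neg.deriv
      have h3 : deriv (fun x => - deriv f x) 0 = - a := by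
        simpa using this
      rw [h3]
      linarith
    · rw [hdn]
      simp [h0]
    · exact hc.neg
  have hconst : f =ᶠ[𝓝 (0 : ℝ)] fun _ => f 0 := by
    filter_upwards [hm, hmax] with x hx1 hx2
    have : -f 0 ≤ -f x := hx2
    linarith
  have hz : deriv f =ᶠ[𝓝 (0 : ℝ)] fun _ => (0 : ℝ) := by
    have := hconst.deriv
    filter_upwards [this] with x hx
    rw [hx]
    simp
  have ha : HasDerivAt (deriv f) 0 0 := (hasDerivAt_const (0 : ℝ) (0 : ℝ)).congr_of_eventuallyEq hz
  have := hdd.unique ha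
  linarith

/-- **The maximum principle.** -/
theorem mp : S_MP := by
  intro Ω T v hΩ hcont hheat hK t0 z0 ht0 ht0T hz0
  by_contra hneg
  push Not at hneg
  have hT : 0 < T := ht0.trans_le ht0T
  obtain ⟨ε, hε, hεT⟩ : ∃ ε : ℝ, 0 < ε ∧ ε * (1 + T) < - v t0 z0 := by
    refine ⟨- v t0 z0 / (2 * (1 + T)), by apply div_pos <;> linarith, ?_⟩
    rw [div_mul_eq_mul_div, div_lt_iff₀ (by linarith)]
    nlinarith
  obtain ⟨K, hKc, hKs, hKb⟩ := hK ε hε
  -- the auxiliary function
  set w : ℝ × ℂ → ℝ := fun q => v q.1 q.2 + ε * (1 + q.1) with hw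
  have hw0 : w (t0, z0) < 0 := by
    simp only [hw]
    nlinarith
  have hmem : (t0, z0) ∈ K := by
    by_contra hn
    have := hKb t0 z0 ht0 ht0T hz0 hn
    simp only [hw] at hw0
    nlinarith
  have hwc : ContinuousOn w K := by
    apply ContinuousOn.add (hcont.mono hKs)
    fun_prop
  obtain ⟨⟨t1, z1⟩, h1K, h1min⟩ := hKc.exists_isMinOn ⟨_, hmem⟩ hwc
  have h1s := hKs h1K
  have ht1 : 0 < t1 := h1s.1.1
  have ht1T : t1 ≤ T := h1s.1.2
  have hz1 : z1 ∈ Ω := h1s.2
  have hw1 : w (t1, z1) < 0 := (h1min hmem).trans_lt hw0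
  have hall : ∀ t z, 0 < t → t ≤ T → z ∈ Ω → w (t1, z1) ≤ w (t, z) := by
    intro t z ht htT hz
    by_cases hk : (t, z) ∈ K
    · exact h1min hk
    · have := hKb t z ht htT hz hk
      have h2 : 0 < w (t, z) := by
        simp only [hw]
        nlinarith
      linarith
  obtain ⟨a, b, ha, hb, hd⟩ := hheat t1 z1 ht1 ht1T hz1
  have hnh : Ω ∈ 𝓝 z1 := hΩ.mem_nhds hz1
  have ha0 : 0 ≤ a := by
    apply d2_nonneg ha
    have hc : ContinuousAt (fun x : ℝ => z1 + (x : ℂ)) 0 := by fun_prop
    have : ∀ᶠ x : ℝ in 𝓝 0, z1 + (x : ℂ) ∈ Ω := by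
      apply hc.eventually_mem
      simpa using hnh
    filter_upwards [this] with x hx
    have := hall t1 _ ht1 ht1T hx
    simp only [hw] at this
    simp only [ofReal_zero, add_zero]
    linarith
  have hb0 : 0 ≤ b := by
    apply d2_nonneg hb
    have hc : ContinuousAt (fun y : ℝ => z1 + (y : ℂ) * I) 0 := by fun_prop
    have : ∀ᶠ y : ℝ in 𝓝 0, z1 + (y : ℂ) * I ∈ Ω := by
      apply hc.eventually_mem
      simpa using hnh
    filter_upwards [this] with x hx
    have := hall t1 _ ht1 ht1T hx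
    simp only [hw] at this
    simp only [ofReal_zero, zero_mul, add_zero]
    linarith
  -- the time derivative
  have hlim : Tendsto (slope (fun τ => v τ z1) t1) (𝓝[<] t1) (𝓝 (a + b)) :=
    (hasDerivAt_iff_tendsto_slope.1 hd).mono_left
      (nhdsWithin_mono _ (fun x hx => by simpa using (ne_of_lt hx)))
  have hle : ∀ᶠ τ in 𝓝[<] t1, slope (fun τ => v τ z1) t1 τ ≤ -ε := by
    have h3 : ∀ᶠ τ in 𝓝[<] t1, 0 < τ := by
      exact (eventually_gt_nhds ht1).filter_mono nhdsWithin_le_nhds
    filter_upwards [h3, self_mem_nhdsWithin] with τ hτ hlt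
    have hlt' : τ < t1 := hlt
    have h4 := hall τ z1 hτ (hlt'.le.trans ht1T) hz1
    simp only [hw] at h4
    rw [slope_def_field, div_le_iff_of_neg (by linarith)]
    nlinarith
  have : a + b ≤ -ε := le_of_tendsto hlim hle
  linarith

end Pool.Agent.N908.QD
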